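import Mathlib
import Pool.Agent.H44.Fatou.Coset

set_option autoImplicit false

namespace Pool.Agent.Results.MP_8f2e1c_an.CosetBoundary

open Polynomial

/-- The rational map `P/Q` of the Riemann sphere is hyperbolic, in the words of the frozen
statement `S05373`: the continuous extension `f` of `P/Q` to the sphere has every critical point
(point where `f` is not locally injective) attracted to an attracting periodic cycle. -/
def IsHyperbolic (P Q : Polynomial ℂ) : Prop :=
  ∃ f : OnePoint ℂ → OnePoint ℂ, Continuous f ∧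
    (∀ z : ℂ, Q.eval z ≠ 0 → f (OnePoint.some z) = OnePoint.some (P.eval z / Q.eval z)) ∧
    ∀ c : OnePoint ℂ, (¬ ∃ U ∈ nhds c, Set.InjOn f U) →
      ∃ z : OnePoint ℂ, ∃ n : ℕ, 0 < n ∧ f^[n] z = z ∧
        (∃ U ∈ nhds z, ∀ w ∈ U,
          Filter.Tendsto (fun k : ℕ => f^[n * k] w) Filter.atTop (nhds z)) ∧
        Filter.Tendsto (fun k : ℕ => f^[n * k] c) Filter.atTop (nhds z)

/-- Every coset `PGL₂(ℂ) ∘ g` of a rational map `g = P/Q` of degree `d ≥ 2`: for all `w` outside a
finite set and all `a` with `g(a) ≠ w`, every invertible matrix close enough to the rank one matrix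
with rows `(a, -a w)` and `(1, -w)` gives, by composition with `g`, a hyperbolic map. -/
theorem result (d : ℕ) (hd : 2 ≤ d) (P Q : Polynomial ℂ) (hcop : IsCoprime P Q)
    (hdeg : max P.natDegree Q.natDegree = d) :
    ∃ E : Set ℂ, E.Finite ∧ ∀ w ∉ E, ∀ a : ℂ, P.eval a ≠ w * Q.eval a →
      ∃ ρ : ℝ, 0 < ρ ∧ ∀ α β γ δ : ℂ, α * δ - β * γ ≠ 0 →
        ‖α - a‖ < ρ → ‖β + a * w‖ < ρ → ‖γ - 1‖ < ρ → ‖δ + w‖ < ρ →
        IsHyperbolic (C α * P + C β * Q) (C γ * P + C δ * Q) :=
  Pool.Agent.H44.Fatou.coset_main hcop (by omega) hdeg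

end Pool.Agent.Results.MP_8f2e1c_an.CosetBoundary
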