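import Mathlib
import Pool.Agent.H44.LD.MAIN
import Pool.Agent.H44.LD.AEC
import Pool.Agent.H44.LD.RAT
import Pool.Agent.H44.LD.NULLS
import Pool.Agent.H44.DN.DMN
import Pool.Agent.H44.DN.DRT
import Pool.Agent.H32.RB.Main

/-!
# Collet-Eckmann rational maps are Lebesgue density points of the hyperbolic maps
-/

set_option autoImplicit false

namespace Pool.Agent.H44.Old.Density

open Polynomial Filter Topology MeasureTheory

/-- `f` is the rational map `P/Q` on the sphere. -/
def IsMap (f : OnePoint ℂ → OnePoint ℂ) (P Q : Polynomial ℂ) : Prop :=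
  Continuous f ∧
    ∀ z : ℂ, Q.eval z ≠ 0 → f (OnePoint.some z) = OnePoint.some (P.eval z / Q.eval z)

/-- `c` is a critical point of `f`. -/
def IsCritical (f : OnePoint ℂ → OnePoint ℂ) (c : OnePoint ℂ) : Prop :=
  ¬ ∃ U ∈ nhds c, Set.InjOn f U

/-- The orbit of `c` is attracted to an attracting cycle (words of the frozen statement
`S05373`). -/
def ToAttracting (f : OnePoint ℂ → OnePoint ℂ) (c : OnePoint ℂ) : Prop :=
  ∃ z : OnePoint ℂ, ∃ n : ℕ, 0 < n ∧ f^[n] z = z ∧
    (∃ U ∈ nhds z, ∀ w ∈ U,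
      Filter.Tendsto (fun k : ℕ => f^[n * k] w) Filter.atTop (nhds z)) ∧
    Filter.Tendsto (fun k : ℕ => f^[n * k] c) Filter.atTop (nhds z)

/-- The rational map `P/Q` is hyperbolic, in the words of the frozen statement `S05373`: every
critical point is attracted to an attracting periodic cycle. -/
def IsHyperbolic (P Q : Polynomial ℂ) : Prop :=
  ∃ f : OnePoint ℂ → OnePoint ℂ, IsMap f P Q ∧ ∀ c : OnePoint ℂ, IsCritical f c → ToAttracting f c

/-- The inverse of the chart `1 / z` at infinity. -/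
noncomputable def atInfinity (w : ℂ) : OnePoint ℂ :=
  if w = 0 then OnePoint.infty else OnePoint.some w⁻¹

/-- `z` is a fixed point of `F` at which, in the chart, `F` is complex differentiable with
derivative `a`. -/
def FixedWithMultiplier (F : OnePoint ℂ → OnePoint ℂ) (z : OnePoint ℂ) (a : ℂ) : Prop :=
  (∃ (w : ℂ) (G : ℂ → ℂ), z = OnePoint.some w ∧ G w = w ∧ HasDerivAt G a w ∧
    ∀ᶠ u : ℂ in 𝓝 w, F (OnePoint.some u) = OnePoint.some (G u)) ∨
  (∃ G : ℂ → ℂ, z = OnePoint.infty ∧ G 0 = 0 ∧ HasDerivAt G a 0 ∧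
    ∀ᶠ u : ℂ in 𝓝 (0 : ℂ), F (atInfinity u) = atInfinity (G u))

/-- The orbit of `c` is attracted to a parabolic cycle (landing on it is allowed): `z` is a periodic
point with `(f^n)'(z) = 1`, and `f^(n k)(c)` tends to `z`. -/
def ToParabolic (f : OnePoint ℂ → OnePoint ℂ) (c : OnePoint ℂ) : Prop :=
  ∃ z : OnePoint ℂ, ∃ n : ℕ, 0 < n ∧ FixedWithMultiplier f^[n] z 1 ∧
    Filter.Tendsto (fun k : ℕ => f^[n * k] c) Filter.atTop (nhds z)

/-- The chordal distance of the Riemann sphere. -/
noncomputable def chordal : OnePoint ℂ → OnePoint ℂ → ℝ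
  | OnePoint.some z, OnePoint.some w => ‖z - w‖ / (√(1 + ‖z‖ ^ 2) * √(1 + ‖w‖ ^ 2))
  | OnePoint.some z, OnePoint.infty => 1 / √(1 + ‖z‖ ^ 2)
  | OnePoint.infty, OnePoint.some w => 1 / √(1 + ‖w‖ ^ 2)
  | OnePoint.infty, OnePoint.infty => 0

/-- The Collet-Eckmann condition at the point `x`: the derivatives of `f^n` at `x` in the chordal
metric grow exponentially, `|(f^n)'(x)| ≥ C q^n` with `C > 0`, `q > 1` (the local expansion rate is
the modulus of the derivative). -/
def ColletEckmannAt (f : OnePoint ℂ → OnePoint ℂ) (x : OnePoint ℂ) : Prop :=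
  ∃ C q : ℝ, 0 < C ∧ 1 < q ∧ ∀ n : ℕ, ∀ᶠ y in 𝓝 x,
    C * q ^ n * chordal x y ≤ chordal (f^[n] x) (f^[n] y)

/-- The polynomial of degree at most `d` with coefficients `v`. -/
noncomputable def poly {d : ℕ} (v : Fin (d + 1) → ℂ) : Polynomial ℂ := ∑ i, C (v i) * X ^ (i : ℕ)

/-- The coefficients of index at most `d` of a polynomial. -/
noncomputable def coeffs (d : ℕ) (P : Polynomial ℂ) : Fin (d + 1) → ℂ := fun i => P.coeff i

/-- `P/Q` is a hyperbolic rational map of degree exactly `d`. -/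
def IsHypDeg (d : ℕ) (P Q : Polynomial ℂ) : Prop :=
  IsCoprime P Q ∧ max P.natDegree Q.natDegree = d ∧ IsHyperbolic P Q

/-- The pairs `(P, Q)` of polynomials of degree at most `d`, given by their coefficients, such that
`P/Q` is not a hyperbolic rational map of degree `d`. -/
def Bad (d : ℕ) : Set ((Fin (d + 1) → ℂ) × (Fin (d + 1) → ℂ)) :=
  {v | ¬ IsHypDeg d (poly v.1) (poly v.2)}

/-- The proportion of the ball of radius `r` around `v` occupied by the pairs which are not
hyperbolic maps of degree `d`. -/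
noncomputable def badProportion (d : ℕ) (v : (Fin (d + 1) → ℂ) × (Fin (d + 1) → ℂ)) (r : ℝ) :
    ENNReal :=
  volume (Metric.ball v r ∩ Bad d) / volume (Metric.ball v r)

/-- The rational map `P/Q` is of the type considered here: each critical point is attracted to an
attracting cycle, or is attracted to (possibly lands on) a parabolic cycle, or has an iterate with
the Collet-Eckmann condition; and almost every point of the plane is attracted to an attracting or a
parabolic cycle. -/
def IsCEType (P Q : Polynomial ℂ) : Prop :=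
  ∃ f : OnePoint ℂ → OnePoint ℂ, IsMap f P Q ∧
    (∀ c : OnePoint ℂ, IsCritical f c →
      ToAttracting f c ∨ ToParabolic f c ∨ ∃ m : ℕ, ColletEckmannAt f (f^[m] c)) ∧
    ∀ᵐ z : ℂ, ToAttracting f (OnePoint.some z) ∨ ToParabolic f (OnePoint.some z)

/-- The rational map `P/Q` is Collet-Eckmann with attracting basins only: each critical point is
attracted to an attracting cycle or has an iterate with the Collet-Eckmann condition, and the points
attracted to attracting cycles are dense in the sphere. -/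
def IsCEAttracting (P Q : Polynomial ℂ) : Prop :=
  ∃ f : OnePoint ℂ → OnePoint ℂ, IsMap f P Q ∧
    (∀ c : OnePoint ℂ, IsCritical f c →
      ToAttracting f c ∨ ∃ m : ℕ, ColletEckmannAt f (f^[m] c)) ∧
    Dense {z : OnePoint ℂ | ToAttracting f z}

theorem hyp_iff' {d : ℕ} (hd : 2 ≤ d) (v : Pool.Agent.H79.Eul.E d) :
    IsHypDeg d (poly v.1) (poly v.2) ↔ Pool.Agent.H79.Par.HypDeg v := by
  constructor
  · rintro ⟨h1, h2, h3⟩
    have h2' : max (poly v.1).natDegree (poly v.2).natDegree = d := h2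
    exact ⟨h1, h2, (Pool.Agent.H32.BT.hyp_iff h1 (by rw [h2']; omega)).1
      (by obtain ⟨f, ⟨hf1, hf2⟩, hf3⟩ := h3; exact ⟨f, hf1, hf2, hf3⟩)⟩
  · rintro ⟨h1, h2, h3⟩
    obtain ⟨f, hf1, hf2, hf3⟩ := (Pool.Agent.H32.BT.hyp_iff h1 (by rw [h2]; omega)).2 h3
    exact ⟨h1, h2, f, ⟨hf1, hf2⟩, hf3⟩

theorem chord_eq (x y : OnePoint ℂ) : chordal x y = Pool.Agent.H35.EX.chord x y := by
  induction x using OnePoint.rec with
  | infty =>
    induction y using OnePoint.rec with
    | infty => rfl
    | coe y => rfl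
  | coe x =>
    induction y using OnePoint.rec with
    | infty => rfl
    | coe y => rfl

theorem dens (d : ℕ) (hd : 2 ≤ d) (A B : Polynomial ℂ) (hcop : IsCoprime A B)
    (hdeg : max A.natDegree B.natDegree = d) (hCE : IsCEType A B) :
    Pool.Agent.H44.LD.Ces (fun j => badProportion d (coeffs d A, coeffs d B) ((1 / 2) ^ j)) := by
  obtain ⟨f, hf, hcrit, hae⟩ := hCE
  have hAd : A.natDegree ≤ d := hdeg ▸ le_max_left _ _
  have hBd : B.natDegree ≤ d := hdeg ▸ le_max_right _ _
  obtain ⟨v0, hv0⟩ : ∃ v0 : Pool.Agent.H79.Eul.E d, v0 = (coeffs d A, coeffs d B) := ⟨_, rfl⟩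
  have e1 : Pool.Agent.H79.Eul.pol v0.1 = A := by rw [hv0]; exact Pool.Agent.H79.Eul.pol_cf hAd
  have e2 : Pool.Agent.H79.Eul.pol v0.2 = B := by rw [hv0]; exact Pool.Agent.H79.Eul.pol_cf hBd
  have hB0 : B ≠ 0 := Pool.Agent.H32.BT.den_ne_zero hcop (by omega)
  have hfr : f = Pool.Agent.H79.Par.Rf v0 := by
    unfold Pool.Agent.H79.Par.Rf
    rw [e1, e2]
    exact Pool.Agent.H32.RB.ext_eq hcop hB0 hf
  have hc1 : IsCoprime (Pool.Agent.H79.Eul.pol v0.1) (Pool.Agent.H79.Eul.pol v0.2) := by
    rw [e1, e2]; exact hcop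
  have hd1 : max (Pool.Agent.H79.Eul.pol v0.1).natDegree (Pool.Agent.H79.Eul.pol v0.2).natDegree
      = d := by rw [e1, e2]; exact hdeg
  have h1 := Pool.Agent.H44.LD.ae_conv hd hc1 hd1 (by
    filter_upwards [hae] with z hz
    rw [← hfr]
    rcases hz with ⟨w, n, h1, h2, h3, h4⟩ | ⟨w, n, h1, h2, h3⟩
    · exact Or.inl ⟨w, n, ⟨h1, h2, h3⟩, h4⟩
    · exact Or.inr ⟨w, n, h1, h2, h3⟩)
  have h2 := Pool.Agent.H44.LD.ces_ratio (Pool.Agent.H44.LD.ld_main hd hc1 hd1 (fun c hc => by
      rw [← hfr] at hc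
      rcases hcrit c hc with ⟨z, n, h1, h2, h3, h4⟩ | ⟨z, n, h1, h2, h3⟩ | ⟨m, C, q, h1, h2, h3⟩
      · rw [← hfr]
        exact Or.inl ⟨z, n, Or.inl (Or.inl ⟨⟨h1, h2, h3⟩, h4⟩)⟩
      · rw [← hfr]
        by_cases h : ∀ k : ℕ, f^[n * k] c ≠ z
        · exact Or.inl ⟨z, n, Or.inl (Or.inr ⟨h1, h2, h3, h⟩)⟩
        · push Not at h
          obtain ⟨k, hk⟩ := h
          exact Or.inl ⟨z, n, Or.inr ⟨h1, h2, n * k, hk⟩⟩
      · refine Or.inr ⟨m, C, q, h1, h2, fun n => ?_⟩
        rw [← hfr]
        filter_upwards [h3 n] with y hy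
        rw [← chord_eq, ← chord_eq]
        exact hy) h1)
  have h3 : {v : Pool.Agent.H79.Eul.E d | ¬ Pool.Agent.H79.Par.HypDeg v} = Bad d := by
    ext v
    show (¬ _) ↔ (¬ _)
    rw [not_iff_not]
    exact (hyp_iff' hd v).symm
  rw [h3, hv0] at h2
  exact h2

theorem fdens (d : ℕ) (hd : 2 ≤ d) (A B : Polynomial ℂ) (hcop : IsCoprime A B)
    (hdeg : max A.natDegree B.natDegree = d) (hCE : IsCEAttracting A B) :
    Tendsto (fun r : ℝ => badProportion d (coeffs d A, coeffs d B) r) (𝓝[>] 0) (𝓝 0) := by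
  obtain ⟨f, hf, hcrit, hdn⟩ := hCE
  have hAd : A.natDegree ≤ d := hdeg ▸ le_max_left _ _
  have hBd : B.natDegree ≤ d := hdeg ▸ le_max_right _ _
  obtain ⟨v0, hv0⟩ : ∃ v0 : Pool.Agent.H79.Eul.E d, v0 = (coeffs d A, coeffs d B) := ⟨_, rfl⟩
  have e1 : Pool.Agent.H79.Eul.pol v0.1 = A := by rw [hv0]; exact Pool.Agent.H79.Eul.pol_cf hAd
  have e2 : Pool.Agent.H79.Eul.pol v0.2 = B := by rw [hv0]; exact Pool.Agent.H79.Eul.pol_cf hBd
  have hB0 : B ≠ 0 := Pool.Agent.H32.BT.den_ne_zero hcop (by omega)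
  have hfr : f = Pool.Agent.H79.Par.Rf v0 := by
    unfold Pool.Agent.H79.Par.Rf
    rw [e1, e2]
    exact Pool.Agent.H32.RB.ext_eq hcop hB0 hf
  have hc1 : IsCoprime (Pool.Agent.H79.Eul.pol v0.1) (Pool.Agent.H79.Eul.pol v0.2) := by
    rw [e1, e2]; exact hcop
  have hd1 : max (Pool.Agent.H79.Eul.pol v0.1).natDegree (Pool.Agent.H79.Eul.pol v0.2).natDegree
      = d := by rw [e1, e2]; exact hdeg
  have hatt : ∀ x : OnePoint ℂ, ToAttracting f x →
      Pool.Agent.H32.BT.Att (Pool.Agent.H79.Par.Rf v0) x := by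
    rintro x ⟨z, n, h1, h2, h3, h4⟩
    rw [← hfr]
    exact ⟨z, n, ⟨h1, h2, h3⟩, h4⟩
  have h2 := Pool.Agent.H44.DN.d_ratio (Pool.Agent.H44.DN.d_main hd hc1 hd1 (fun c hc => by
      rw [← hfr] at hc
      rcases hcrit c hc with h | ⟨m, C, q, h1, h2, h3⟩
      · exact Or.inl (hatt c h)
      · refine Or.inr ⟨m, C, q, h1, h2, fun n => ?_⟩
        rw [← hfr]
        filter_upwards [h3 n] with y hy
        rw [← chord_eq, ← chord_eq]
        exact hy) (hdn.mono fun x hx => hatt x hx))
  have h3 : {v : Pool.Agent.H79.Eul.E d | ¬ Pool.Agent.H79.Par.HypDeg v} = Bad d := by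
    ext v
    show (¬ _) ↔ (¬ _)
    rw [not_iff_not]
    exact (hyp_iff' hd v).symm
  rw [h3, hv0] at h2
  exact h2

theorem ces_of_full {p : ℝ → ENNReal} (hp : ∀ r, p r ≤ 1) (h : Tendsto p (𝓝[>] 0) (𝓝 0)) :
    Pool.Agent.H44.LD.Ces (fun j => p ((1 / 2) ^ j)) := by
  refine Pool.Agent.H44.LD.ces_of_tendsto (B := 1) ENNReal.one_ne_top (fun j => hp _) ?_
  refine h.comp (tendsto_nhdsWithin_iff.2 ⟨?_, ?_⟩)
  · exact tendsto_pow_atTop_nhds_zero_of_lt_one (by norm_num) (by norm_num)
  · exact Filter.Eventually.of_forall fun j => by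
      show (0 : ℝ) < (1 / 2) ^ j
      positivity

/-- Let `d ≥ 2`.

(1) Let `A/B` be a rational map of degree `d` such that each critical point is attracted to an
attracting cycle or has an iterate with the Collet-Eckmann condition (no condition on the
recurrence; any multiplicities and critical orbit relations are allowed), and the points attracted
to attracting cycles are dense in the sphere. Then `A/B` is a Lebesgue density point of the
hyperbolic maps: the proportion of the pairs of polynomials in the ball of radius `r` around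
`(A, B)` which do not define a hyperbolic map of degree `d` tends to `0` as `r → 0`.

(2) Let `A/B` be a rational map of degree `d` such that almost every point of the plane is
attracted to an attracting or a parabolic cycle, and each critical point is attracted to an
attracting cycle, or is attracted to (possibly lands on) a parabolic cycle, or has an iterate with
the Collet-Eckmann condition. Then this proportion for the radius `2^(-j)` tends to `0` in the mean
over `j`.

(3) The set of the non-hyperbolic maps of one of these two types has Lebesgue measure zero in the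
space of the rational maps of degree `d`. -/
theorem result (d : ℕ) (hd : 2 ≤ d) :
    (∀ A B : Polynomial ℂ, IsCoprime A B → max A.natDegree B.natDegree = d → IsCEAttracting A B →
      Tendsto (fun r : ℝ => badProportion d (coeffs d A, coeffs d B) r) (𝓝[>] 0) (𝓝 0)) ∧
    (∀ A B : Polynomial ℂ, IsCoprime A B → max A.natDegree B.natDegree = d → IsCEType A B →
      Tendsto (fun J : ℕ =>
        (∑ j ∈ Finset.range J, badProportion d (coeffs d A, coeffs d B) ((1 / 2) ^ j)) / J)
        atTop (𝓝 0)) ∧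
    volume {v : (Fin (d + 1) → ℂ) × (Fin (d + 1) → ℂ) |
      IsCoprime (poly v.1) (poly v.2) ∧ max (poly v.1).natDegree (poly v.2).natDegree = d ∧
        (IsCEAttracting (poly v.1) (poly v.2) ∨ IsCEType (poly v.1) (poly v.2)) ∧
          ¬ IsHyperbolic (poly v.1) (poly v.2)} = 0 := by
  refine ⟨fun A B hcop hdeg hCE => fdens d hd A B hcop hdeg hCE,
    fun A B hcop hdeg hCE => dens d hd A B hcop hdeg hCE, ?_⟩
  refine Pool.Agent.H44.LD.null_of_ces (d := d) (B := Bad d) ?_ ?_
  · rintro v ⟨-, -, -, h4⟩ h5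
    exact h4 h5.2.2
  · rintro v ⟨h1, h2, h3, -⟩
    have e1 : coeffs d (poly v.1) = v.1 := by
      have := Pool.Agent.H79.Eul.cf_pol (d := d) v.1
      exact this
    have e2 : coeffs d (poly v.2) = v.2 := by
      have := Pool.Agent.H79.Eul.cf_pol (d := d) v.2
      exact this
    rcases h3 with h3 | h3
    · have h := fdens d hd (poly v.1) (poly v.2) h1 h2 h3
      rw [e1, e2] at h
      refine ces_of_full (p := fun r => badProportion d v r) (fun r => ?_) h
      refine ENNReal.div_le_of_le_mul ?_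
      rw [one_mul]
      exact measure_mono Set.inter_subset_left
    · have h := dens d hd (poly v.1) (poly v.2) h1 h2 h3
      rw [e1, e2] at h
      exact h

end Pool.Agent.H44.Old.Density
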