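import Mathlib
import Pool.Agent.H35.EX.DensK
import Pool.Agent.H32.RB.Main

/-!
# Rational maps whose Julia critical orbits end in expanding sets or in parabolic cycles are density
points of the hyperbolic maps
-/

set_option autoImplicit false

namespace Pool.Agent.H44.Old.ExpandingDensity

open Polynomial Filter Topology MeasureTheory

/-- `f` is the rational map `P/Q` on the sphere. -/
def IsMap (f : OnePoint ℂ → OnePoint ℂ) (P Q : Polynomial ℂ) : Prop :=
  Continuous f ∧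
    ∀ z : ℂ, Q.eval z ≠ 0 → f (OnePoint.some z) = OnePoint.some (P.eval z / Q.eval z)

/-- `c` is a critical point of `f`. -/
def IsCritical (f : OnePoint ℂ → OnePoint ℂ) (c : OnePoint ℂ) : Prop :=
  ¬ ∃ U ∈ nhds c, Set.InjOn f U

/-- The orbit of `c` is attracted to an attracting cycle (words of the frozen statement
`S05373`). -/
def ToAttracting (f : OnePoint ℂ → OnePoint ℂ) (c : OnePoint ℂ) : Prop :=
  ∃ z : OnePoint ℂ, ∃ n : ℕ, 0 < n ∧ f^[n] z = z ∧
    (∃ U ∈ nhds z, ∀ w ∈ U,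
      Filter.Tendsto (fun k : ℕ => f^[n * k] w) Filter.atTop (nhds z)) ∧
    Filter.Tendsto (fun k : ℕ => f^[n * k] c) Filter.atTop (nhds z)

/-- The rational map `P/Q` is hyperbolic, in the words of the frozen statement `S05373`: every
critical point is attracted to an attracting periodic cycle. -/
def IsHyperbolic (P Q : Polynomial ℂ) : Prop :=
  ∃ f : OnePoint ℂ → OnePoint ℂ, IsMap f P Q ∧ ∀ c : OnePoint ℂ, IsCritical f c → ToAttracting f c

/-- The inverse of the chart `1 / z` at infinity. -/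
noncomputable def atInfinity (w : ℂ) : OnePoint ℂ :=
  if w = 0 then OnePoint.infty else OnePoint.some w⁻¹

/-- `z` is a fixed point of `F` at which, in the chart, `F` is complex differentiable with
derivative `a`. -/
def FixedWithMultiplier (F : OnePoint ℂ → OnePoint ℂ) (z : OnePoint ℂ) (a : ℂ) : Prop :=
  (∃ (w : ℂ) (G : ℂ → ℂ), z = OnePoint.some w ∧ G w = w ∧ HasDerivAt G a w ∧
    ∀ᶠ u : ℂ in 𝓝 w, F (OnePoint.some u) = OnePoint.some (G u)) ∨
  (∃ G : ℂ → ℂ, z = OnePoint.infty ∧ G 0 = 0 ∧ HasDerivAt G a 0 ∧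
    ∀ᶠ u : ℂ in 𝓝 (0 : ℂ), F (atInfinity u) = atInfinity (G u))

/-- The orbit of `c` is attracted to a parabolic cycle (landing on it is allowed): `z` is a periodic
point with `(f^n)'(z) = 1`, and `f^(n k)(c)` tends to `z`. -/
def ToParabolic (f : OnePoint ℂ → OnePoint ℂ) (c : OnePoint ℂ) : Prop :=
  ∃ z : OnePoint ℂ, ∃ n : ℕ, 0 < n ∧ FixedWithMultiplier f^[n] z 1 ∧
    Filter.Tendsto (fun k : ℕ => f^[n * k] c) Filter.atTop (nhds z)

/-- The orbit of `c` lands on a repelling cycle: `f^m(c)` is a periodic point `z` with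
`|(f^n)'(z)| > 1`. -/
def ToRepelling (f : OnePoint ℂ → OnePoint ℂ) (c : OnePoint ℂ) : Prop :=
  ∃ z : OnePoint ℂ, ∃ n m : ℕ, 0 < n ∧ f^[m] c = z ∧
    ∃ a : ℂ, 1 < ‖a‖ ∧ FixedWithMultiplier f^[n] z a

/-- The chordal distance of the Riemann sphere. -/
noncomputable def chordal : OnePoint ℂ → OnePoint ℂ → ℝ
  | OnePoint.some z, OnePoint.some w => ‖z - w‖ / (√(1 + ‖z‖ ^ 2) * √(1 + ‖w‖ ^ 2))
  | OnePoint.some z, OnePoint.infty => 1 / √(1 + ‖z‖ ^ 2)
  | OnePoint.infty, OnePoint.some w => 1 / √(1 + ‖w‖ ^ 2)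
  | OnePoint.infty, OnePoint.infty => 0

/-- `K` is an expanding (hyperbolic) set of `f`: a compact set with `f(K) ⊆ K` on which an iterate of
`f` locally expands the chordal distance by a factor `q > 1`. -/
def IsExpanding (f : OnePoint ℂ → OnePoint ℂ) (K : Set (OnePoint ℂ)) : Prop :=
  IsCompact K ∧ Set.MapsTo f K K ∧ ∃ (N : ℕ) (q : ℝ), 1 < q ∧
    ∀ x ∈ K, ∀ᶠ y in 𝓝 x, q * chordal x y ≤ chordal (f^[N] x) (f^[N] y)

/-- The orbit of `c` ends in an expanding set: some `f^m(c)` is a point of an expanding set. -/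
def ToExpanding (f : OnePoint ℂ → OnePoint ℂ) (c : OnePoint ℂ) : Prop :=
  ∃ K : Set (OnePoint ℂ), IsExpanding f K ∧ ∃ m : ℕ, f^[m] c ∈ K

/-- The polynomial of degree at most `d` with coefficients `v`. -/
noncomputable def poly {d : ℕ} (v : Fin (d + 1) → ℂ) : Polynomial ℂ := ∑ i, C (v i) * X ^ (i : ℕ)

/-- The coefficients of index at most `d` of a polynomial. -/
noncomputable def coeffs (d : ℕ) (P : Polynomial ℂ) : Fin (d + 1) → ℂ := fun i => P.coeff i

/-- `P/Q` is a hyperbolic rational map of degree exactly `d`. -/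
def IsHypDeg (d : ℕ) (P Q : Polynomial ℂ) : Prop :=
  IsCoprime P Q ∧ max P.natDegree Q.natDegree = d ∧ IsHyperbolic P Q

/-- The pairs `(P, Q)` of polynomials of degree at most `d`, given by their coefficients, such that
`P/Q` is not a hyperbolic rational map of degree `d`. -/
def Bad (d : ℕ) : Set ((Fin (d + 1) → ℂ) × (Fin (d + 1) → ℂ)) :=
  {v | ¬ IsHypDeg d (poly v.1) (poly v.2)}

theorem hyp_iff' {d : ℕ} (hd : 2 ≤ d) (v : Pool.Agent.H79.Eul.E d) :
    IsHypDeg d (poly v.1) (poly v.2) ↔ Pool.Agent.H79.Par.HypDeg v := by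
  constructor
  · rintro ⟨h1, h2, h3⟩
    have h2' : max (poly v.1).natDegree (poly v.2).natDegree = d := h2
    exact ⟨h1, h2, (Pool.Agent.H32.BT.hyp_iff h1 (by rw [h2']; omega)).1
      (by obtain ⟨f, ⟨hf1, hf2⟩, hf3⟩ := h3; exact ⟨f, hf1, hf2, hf3⟩)⟩
  · rintro ⟨h1, h2, h3⟩
    obtain ⟨f, hf1, hf2, hf3⟩ := (Pool.Agent.H32.BT.hyp_iff h1 (by rw [h2]; omega)).2 h3
    exact ⟨h1, h2, f, ⟨hf1, hf2⟩, hf3⟩

theorem chord_eq (x y : OnePoint ℂ) : chordal x y = Pool.Agent.H35.EX.chord x y := by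
  induction x using OnePoint.rec with
  | infty =>
    induction y using OnePoint.rec with
    | infty => rfl
    | coe y => rfl
  | coe x =>
    induction y using OnePoint.rec with
    | infty => rfl
    | coe y => rfl

/-- `f` has an attracting or a parabolic cycle. -/
def HasNonrepellingCycle (f : OnePoint ℂ → OnePoint ℂ) : Prop :=
  ∃ z : OnePoint ℂ, ∃ n : ℕ, 0 < n ∧ ((f^[n] z = z ∧ ∃ U ∈ nhds z, ∀ w ∈ U,
      Filter.Tendsto (fun k : ℕ => f^[n * k] w) Filter.atTop (nhds z)) ∨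
    FixedWithMultiplier f^[n] z 1)

/-- Let `d ≥ 2` and let `f = A/B` be a rational map of degree `d` with an attracting or a parabolic
cycle. Suppose that each critical point of `f` is attracted to an attracting cycle, or attracted to a
parabolic cycle (possibly landing on it), or lands on a repelling cycle, or has an iterate in an
expanding compact invariant set (of any kind, infinite or not).
Then the proportion of the ball of radius `r` around `(A, B)` occupied by the pairs which are not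
hyperbolic maps of degree `d` tends to `0` as `r → 0`. -/
theorem result (d : ℕ) (hd : 2 ≤ d) (A B : Polynomial ℂ) (hcop : IsCoprime A B)
    (hdeg : max A.natDegree B.natDegree = d) (f : OnePoint ℂ → OnePoint ℂ) (hf : IsMap f A B)
    (hcrit : ∀ c : OnePoint ℂ, IsCritical f c →
      ToAttracting f c ∨ ToParabolic f c ∨ ToRepelling f c ∨ ToExpanding f c)
    (hex : HasNonrepellingCycle f) :
    Tendsto (fun r : ℝ =>
        volume (Metric.ball (coeffs d A, coeffs d B) r ∩ Bad d) /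
          volume (Metric.ball (coeffs d A, coeffs d B) r))
      (𝓝[>] 0) (𝓝 0) := by
  have hAd : A.natDegree ≤ d := hdeg ▸ le_max_left _ _
  have hBd : B.natDegree ≤ d := hdeg ▸ le_max_right _ _
  set v0 : Pool.Agent.H79.Eul.E d := (coeffs d A, coeffs d B) with hv0
  have e1 : Pool.Agent.H79.Eul.pol v0.1 = A := Pool.Agent.H79.Eul.pol_cf hAd
  have e2 : Pool.Agent.H79.Eul.pol v0.2 = B := Pool.Agent.H79.Eul.pol_cf hBd
  have hB0 : B ≠ 0 := Pool.Agent.H32.BT.den_ne_zero hcop (by omega)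
  have hfr : f = Pool.Agent.H79.Par.Rf v0 := by
    unfold Pool.Agent.H79.Par.Rf
    rw [e1, e2]
    exact Pool.Agent.H32.RB.ext_eq hcop hB0 hf
  have key := Pool.Agent.H35.EX.geo_densK hd (v0 := v0) (by rw [e1, e2]; exact hcop)
    (by rw [e1, e2]; exact hdeg) (fun c hc => by
      rw [← hfr] at hc ⊢
      rcases hcrit c hc with ⟨z, n, h1, h2, h3, h4⟩ | ⟨z, n, h1, h2, h3⟩ |
        ⟨z, n, m, h1, h2, a, h3, h4⟩ | ⟨K, hK, m, hm⟩
      · exact Or.inl ⟨z, n, Or.inl ⟨⟨h1, h2, h3⟩, h4⟩⟩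
      · by_cases h : ∀ k : ℕ, f^[n * k] c ≠ z
        · exact Or.inl ⟨z, n, Or.inr (Or.inl ⟨h1, h2, h3, h⟩)⟩
        · push Not at h
          obtain ⟨k, hk⟩ := h
          exact Or.inl ⟨z, n, Or.inr (Or.inr (Or.inr ⟨h1, h2, n * k, hk⟩))⟩
      · exact Or.inl ⟨z, n, Or.inr (Or.inr (Or.inl ⟨h1, ⟨a, h3, h4⟩, m, h2⟩))⟩
      · obtain ⟨h1, h2, N, q, h3, h4⟩ := hK
        refine Or.inr ⟨K, ⟨h1, h2, N, q, h3, fun x hx => ?_⟩, m, hm⟩
        filter_upwards [h4 x hx] with y hy
        rw [← chord_eq, ← chord_eq]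
        exact hy) (by
      rw [← hfr]
      obtain ⟨z, n, hn, h⟩ := hex
      rcases h with ⟨h1, h2⟩ | h
      · exact ⟨z, n, hn, Or.inl ⟨hn, h1, h2⟩⟩
      · exact ⟨z, n, hn, Or.inr h⟩)
  exact (Pool.Agent.H79.Par.prop_of_dens key).congr' (by
    filter_upwards with r
    congr 2
    apply congrArg₂ _ rfl
    ext v
    show (¬ _) ↔ (¬ _)
    rw [not_iff_not]
    exact (hyp_iff' hd v).symm)

end Pool.Agent.H44.Old.ExpandingDensity
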