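import Mathlib
import Pool.Agent.H44.DP.FIN
import Pool.Agent.H44.DP.EXC
import Pool.Agent.H44.LD.MAIN
import Pool.Agent.H44.LD.AEC
import Pool.Agent.H44.LD.RAT
import Pool.Agent.H44.LD.NULLS
import Pool.Agent.H44.DN.DRT
import Pool.Agent.H32.RB.Main

/-!
# Collet-Eckmann rational maps with attracting or parabolic cycles are Lebesgue density points of the hyperbolic maps
-/

set_option autoImplicit false

namespace Pool.Agent.Results.MP_8f2e1c_an.FullDensity

open Polynomial Filter Topology MeasureTheory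

/-- `f` is the rational map `P/Q` on the sphere. -/
def IsMap (f : OnePoint ℂ → OnePoint ℂ) (P Q : Polynomial ℂ) : Prop :=
  Continuous f ∧
    ∀ z : ℂ, Q.eval z ≠ 0 → f (OnePoint.some z) = OnePoint.some (P.eval z / Q.eval z)

/-- `c` is a critical point of `f`. -/
def IsCritical (f : OnePoint ℂ → OnePoint ℂ) (c : OnePoint ℂ) : Prop :=
  ¬ ∃ U ∈ nhds c, Set.InjOn f U

/-- The orbit of `c` is attracted to an attracting cycle (words of the frozen statement
`S05373`). -/
def ToAttracting (f : OnePoint ℂ → OnePoint ℂ) (c : OnePoint ℂ) : Prop :=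
  ∃ z : OnePoint ℂ, ∃ n : ℕ, 0 < n ∧ f^[n] z = z ∧
    (∃ U ∈ nhds z, ∀ w ∈ U,
      Filter.Tendsto (fun k : ℕ => f^[n * k] w) Filter.atTop (nhds z)) ∧
    Filter.Tendsto (fun k : ℕ => f^[n * k] c) Filter.atTop (nhds z)

/-- The rational map `P/Q` is hyperbolic, in the words of the frozen statement `S05373`: every
critical point is attracted to an attracting periodic cycle. -/
def IsHyperbolic (P Q : Polynomial ℂ) : Prop :=
  ∃ f : OnePoint ℂ → OnePoint ℂ, IsMap f P Q ∧ ∀ c : OnePoint ℂ, IsCritical f c → ToAttracting f c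

/-- The inverse of the chart `1 / z` at infinity. -/
noncomputable def atInfinity (w : ℂ) : OnePoint ℂ :=
  if w = 0 then OnePoint.infty else OnePoint.some w⁻¹

/-- `z` is a fixed point of `F` at which, in the chart, `F` is complex differentiable with
derivative `a`. -/
def FixedWithMultiplier (F : OnePoint ℂ → OnePoint ℂ) (z : OnePoint ℂ) (a : ℂ) : Prop :=
  (∃ (w : ℂ) (G : ℂ → ℂ), z = OnePoint.some w ∧ G w = w ∧ HasDerivAt G a w ∧
    ∀ᶠ u : ℂ in 𝓝 w, F (OnePoint.some u) = OnePoint.some (G u)) ∨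
  (∃ G : ℂ → ℂ, z = OnePoint.infty ∧ G 0 = 0 ∧ HasDerivAt G a 0 ∧
    ∀ᶠ u : ℂ in 𝓝 (0 : ℂ), F (atInfinity u) = atInfinity (G u))

/-- The orbit of `c` is attracted to a parabolic cycle (landing on it is allowed): `z` is a periodic
point with `(f^n)'(z) = 1`, and `f^(n k)(c)` tends to `z`. -/
def ToParabolic (f : OnePoint ℂ → OnePoint ℂ) (c : OnePoint ℂ) : Prop :=
  ∃ z : OnePoint ℂ, ∃ n : ℕ, 0 < n ∧ FixedWithMultiplier f^[n] z 1 ∧
    Filter.Tendsto (fun k : ℕ => f^[n * k] c) Filter.atTop (nhds z)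

/-- `f` has an attracting or a parabolic cycle. -/
def HasNonrepellingCycle (f : OnePoint ℂ → OnePoint ℂ) : Prop :=
  ∃ z : OnePoint ℂ, ∃ n : ℕ, 0 < n ∧ ((f^[n] z = z ∧ ∃ U ∈ nhds z, ∀ w ∈ U,
      Filter.Tendsto (fun k : ℕ => f^[n * k] w) Filter.atTop (nhds z)) ∨
    FixedWithMultiplier f^[n] z 1)

/-- The chordal distance of the Riemann sphere. -/
noncomputable def chordal : OnePoint ℂ → OnePoint ℂ → ℝ
  | OnePoint.some z, OnePoint.some w => ‖z - w‖ / (√(1 + ‖z‖ ^ 2) * √(1 + ‖w‖ ^ 2))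
  | OnePoint.some z, OnePoint.infty => 1 / √(1 + ‖z‖ ^ 2)
  | OnePoint.infty, OnePoint.some w => 1 / √(1 + ‖w‖ ^ 2)
  | OnePoint.infty, OnePoint.infty => 0

/-- The Collet-Eckmann condition at the point `x`: the derivatives of `f^n` at `x` in the chordal
metric grow exponentially, `|(f^n)'(x)| ≥ C q^n` with `C > 0`, `q > 1` (the local expansion rate is
the modulus of the derivative). -/
def ColletEckmannAt (f : OnePoint ℂ → OnePoint ℂ) (x : OnePoint ℂ) : Prop :=
  ∃ C q : ℝ, 0 < C ∧ 1 < q ∧ ∀ n : ℕ, ∀ᶠ y in 𝓝 x,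
    C * q ^ n * chordal x y ≤ chordal (f^[n] x) (f^[n] y)

/-- The orbit of `c` lands on a repelling cycle: some `f^m(c)` is a periodic point whose multiplier
has modulus greater than `1`. -/
def ToRepelling (f : OnePoint ℂ → OnePoint ℂ) (c : OnePoint ℂ) : Prop :=
  ∃ z : OnePoint ℂ, ∃ n m : ℕ, 0 < n ∧ f^[m] c = z ∧
    ∃ a : ℂ, 1 < ‖a‖ ∧ FixedWithMultiplier f^[n] z a

/-- `K` is an expanding (hyperbolic) set of `f`: a compact set with `f(K) ⊆ K` on which an iterate of
`f` locally expands the chordal distance by a factor `q > 1`. -/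
def IsExpanding (f : OnePoint ℂ → OnePoint ℂ) (K : Set (OnePoint ℂ)) : Prop :=
  IsCompact K ∧ Set.MapsTo f K K ∧ ∃ (N : ℕ) (q : ℝ), 1 < q ∧
    ∀ x ∈ K, ∀ᶠ y in 𝓝 x, q * chordal x y ≤ chordal (f^[N] x) (f^[N] y)

/-- The orbit of `c` ends in an expanding set: some `f^m(c)` is a point of an expanding set. -/
def ToExpanding (f : OnePoint ℂ → OnePoint ℂ) (c : OnePoint ℂ) : Prop :=
  ∃ K : Set (OnePoint ℂ), IsExpanding f K ∧ ∃ m : ℕ, f^[m] c ∈ K

/-- The polynomial of degree at most `d` with coefficients `v`. -/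
noncomputable def poly {d : ℕ} (v : Fin (d + 1) → ℂ) : Polynomial ℂ := ∑ i, C (v i) * X ^ (i : ℕ)

/-- The coefficients of index at most `d` of a polynomial. -/
noncomputable def coeffs (d : ℕ) (P : Polynomial ℂ) : Fin (d + 1) → ℂ := fun i => P.coeff i

/-- `P/Q` is a hyperbolic rational map of degree exactly `d`. -/
def IsHypDeg (d : ℕ) (P Q : Polynomial ℂ) : Prop :=
  IsCoprime P Q ∧ max P.natDegree Q.natDegree = d ∧ IsHyperbolic P Q

/-- The pairs `(P, Q)` of polynomials of degree at most `d`, given by their coefficients, such that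
`P/Q` is not a hyperbolic rational map of degree `d`. -/
def Bad (d : ℕ) : Set ((Fin (d + 1) → ℂ) × (Fin (d + 1) → ℂ)) :=
  {v | ¬ IsHypDeg d (poly v.1) (poly v.2)}

/-- The proportion of the ball of radius `r` around `v` occupied by the pairs which are not
hyperbolic maps of degree `d`. -/
noncomputable def badProportion (d : ℕ) (v : (Fin (d + 1) → ℂ) × (Fin (d + 1) → ℂ)) (r : ℝ) :
    ENNReal :=
  volume (Metric.ball v r ∩ Bad d) / volume (Metric.ball v r)

/-- The rational map `P/Q` has an attracting or a parabolic cycle, and each critical point is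
attracted to an attracting cycle, or is attracted to (possibly lands on) a parabolic cycle, or lands
on a repelling cycle, or lands in an expanding set, or has an iterate with the Collet-Eckmann
condition (the third and the fourth case are contained in the last one). -/
def IsCEType (P Q : Polynomial ℂ) : Prop :=
  ∃ f : OnePoint ℂ → OnePoint ℂ, IsMap f P Q ∧ HasNonrepellingCycle f ∧
    ∀ c : OnePoint ℂ, IsCritical f c →
      ToAttracting f c ∨ ToParabolic f c ∨ ToRepelling f c ∨ ToExpanding f c ∨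
        ∃ m : ℕ, ColletEckmannAt f (f^[m] c)

theorem hyp_iff' {d : ℕ} (hd : 2 ≤ d) (v : Pool.Agent.H79.Eul.E d) :
    IsHypDeg d (poly v.1) (poly v.2) ↔ Pool.Agent.H79.Par.HypDeg v := by
  constructor
  · rintro ⟨h1, h2, h3⟩
    have h2' : max (poly v.1).natDegree (poly v.2).natDegree = d := h2
    exact ⟨h1, h2, (Pool.Agent.H32.BT.hyp_iff h1 (by rw [h2']; omega)).1
      (by obtain ⟨f, ⟨hf1, hf2⟩, hf3⟩ := h3; exact ⟨f, hf1, hf2, hf3⟩)⟩
  · rintro ⟨h1, h2, h3⟩
    obtain ⟨f, hf1, hf2, hf3⟩ := (Pool.Agent.H32.BT.hyp_iff h1 (by rw [h2]; omega)).2 h3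
    exact ⟨h1, h2, f, ⟨hf1, hf2⟩, hf3⟩

theorem chord_eq (x y : OnePoint ℂ) : chordal x y = Pool.Agent.H35.EX.chord x y := by
  induction x using OnePoint.rec with
  | infty =>
    induction y using OnePoint.rec with
    | infty => rfl
    | coe y => rfl
  | coe x =>
    induction y using OnePoint.rec with
    | infty => rfl
    | coe y => rfl

theorem fdens (d : ℕ) (hd : 2 ≤ d) (A B : Polynomial ℂ) (hcop : IsCoprime A B)
    (hdeg : max A.natDegree B.natDegree = d) (hCE : IsCEType A B) :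
    Tendsto (fun r : ℝ => badProportion d (coeffs d A, coeffs d B) r) (𝓝[>] 0) (𝓝 0) := by
  obtain ⟨f, hf, hex, hcrit⟩ := hCE
  have hAd : A.natDegree ≤ d := hdeg ▸ le_max_left _ _
  have hBd : B.natDegree ≤ d := hdeg ▸ le_max_right _ _
  obtain ⟨v0, hv0⟩ : ∃ v0 : Pool.Agent.H79.Eul.E d, v0 = (coeffs d A, coeffs d B) := ⟨_, rfl⟩
  have e1 : Pool.Agent.H79.Eul.pol v0.1 = A := by rw [hv0]; exact Pool.Agent.H79.Eul.pol_cf hAd
  have e2 : Pool.Agent.H79.Eul.pol v0.2 = B := by rw [hv0]; exact Pool.Agent.H79.Eul.pol_cf hBd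
  have hB0 : B ≠ 0 := Pool.Agent.H32.BT.den_ne_zero hcop (by omega)
  have hfr : f = Pool.Agent.H79.Par.Rf v0 := by
    unfold Pool.Agent.H79.Par.Rf
    rw [e1, e2]
    exact Pool.Agent.H32.RB.ext_eq hcop hB0 hf
  have hc1 : IsCoprime (Pool.Agent.H79.Eul.pol v0.1) (Pool.Agent.H79.Eul.pol v0.2) := by
    rw [e1, e2]; exact hcop
  have hd1 : max (Pool.Agent.H79.Eul.pol v0.1).natDegree (Pool.Agent.H79.Eul.pol v0.2).natDegree
      = d := by rw [e1, e2]; exact hdeg
  have hex' : ∃ z n, Pool.Agent.H79.Par.NRCycle (Pool.Agent.H79.Par.Rf v0) z n := by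
    rw [← hfr]
    obtain ⟨z, n, hn, h⟩ := hex
    rcases h with ⟨h1, h2⟩ | h
    · exact ⟨z, n, hn, Or.inl ⟨hn, h1, h2⟩⟩
    · exact ⟨z, n, hn, Or.inr h⟩
  have h2 := Pool.Agent.H44.DN.d_ratio (Pool.Agent.H44.DP.fin_main hd hc1 hd1 (fun c hc => by
      rw [← hfr] at hc ⊢
      rcases hcrit c hc with ⟨z, n, h1, h2, h3, h4⟩ | ⟨z, n, h1, h2, h3⟩ |
        ⟨z, n, m, h1, h2, a, h3, h4⟩ | ⟨K, hK, m, hm⟩ | ⟨m, C, q, h1, h2, h3⟩
      · exact Or.inl ⟨z, n, Or.inl (Or.inl ⟨⟨h1, h2, h3⟩, h4⟩)⟩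
      · by_cases h : ∀ k : ℕ, f^[n * k] c ≠ z
        · exact Or.inl ⟨z, n, Or.inl (Or.inr ⟨h1, h2, h3, h⟩)⟩
        · push Not at h
          obtain ⟨k, hk⟩ := h
          exact Or.inl ⟨z, n, Or.inr ⟨h1, h2, n * k, hk⟩⟩
      · refine Or.inr ⟨m, ?_⟩
        rw [h2, hfr]
        exact Pool.Agent.H44.DP.ce_land hd hc1 hd1 hex' (Or.inl ⟨n, h1, a, h3, by
          rw [← hfr]
          exact h4⟩)
      · refine Or.inr ⟨m, ?_⟩
        obtain ⟨h1, h2, N, q, h3, h4⟩ := hK
        have hE : Pool.Agent.H35.EX.Expd f K := ⟨h1, h2, N, q, h3, fun x hx => by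
          filter_upwards [h4 x hx] with y hy
          rw [← chord_eq, ← chord_eq]
          exact hy⟩
        have h5 := Pool.Agent.H44.DP.ce_land (x := f^[m] c) hd hc1 hd1 hex' (Or.inr ⟨K, by
          rw [← hfr]
          exact hE, hm⟩)
        rw [← hfr] at h5
        exact h5
      · refine Or.inr ⟨m, C, q, h1, h2, fun n => ?_⟩
        filter_upwards [h3 n] with y hy
        rw [← chord_eq, ← chord_eq]
        exact hy) hex')
  have h3 : {v : Pool.Agent.H79.Eul.E d | ¬ Pool.Agent.H79.Par.HypDeg v} = Bad d := by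
    ext v
    show (¬ _) ↔ (¬ _)
    rw [not_iff_not]
    exact (hyp_iff' hd v).symm
  rw [h3, hv0] at h2
  exact h2

theorem ces_of_full {p : ℝ → ENNReal} (hp : ∀ r, p r ≤ 1) (h : Tendsto p (𝓝[>] 0) (𝓝 0)) :
    Pool.Agent.H44.LD.Ces (fun j => p ((1 / 2) ^ j)) := by
  refine Pool.Agent.H44.LD.ces_of_tendsto (B := 1) ENNReal.one_ne_top (fun j => hp _) ?_
  refine h.comp (tendsto_nhdsWithin_iff.2 ⟨?_, ?_⟩)
  · exact tendsto_pow_atTop_nhds_zero_of_lt_one (by norm_num) (by norm_num)
  · exact Filter.Eventually.of_forall fun j => by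
      show (0 : ℝ) < (1 / 2) ^ j
      positivity

/-- Let `d ≥ 2`.

(1) Let `A/B` be a rational map of degree `d` with an attracting or a parabolic cycle, each critical
point of which is attracted to an attracting cycle, or is attracted to (possibly lands on) a parabolic
cycle, or has an iterate with the Collet-Eckmann condition, in particular if it lands on a repelling
cycle or in an expanding compact invariant set (no condition on the recurrence; any multiplicities and
critical orbit relations are allowed). Then `A/B` is a Lebesgue density point of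
the hyperbolic maps: the proportion of the pairs of polynomials in the ball of radius `r` around
`(A, B)` which do not define a hyperbolic map of degree `d` tends to `0` as `r → 0`.

(2) The set of the non-hyperbolic maps as in (1) has Lebesgue measure zero in the space of the
rational maps of degree `d`. -/
theorem result (d : ℕ) (hd : 2 ≤ d) :
    (∀ A B : Polynomial ℂ, IsCoprime A B → max A.natDegree B.natDegree = d → IsCEType A B →
      Tendsto (fun r : ℝ => badProportion d (coeffs d A, coeffs d B) r) (𝓝[>] 0) (𝓝 0)) ∧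
    volume {v : (Fin (d + 1) → ℂ) × (Fin (d + 1) → ℂ) |
      IsCoprime (poly v.1) (poly v.2) ∧ max (poly v.1).natDegree (poly v.2).natDegree = d ∧
        IsCEType (poly v.1) (poly v.2) ∧ ¬ IsHyperbolic (poly v.1) (poly v.2)} = 0 := by
  refine ⟨fun A B hcop hdeg hCE => fdens d hd A B hcop hdeg hCE, ?_⟩
  refine Pool.Agent.H44.LD.null_of_ces (d := d) (B := Bad d) ?_ ?_
  · rintro v ⟨-, -, -, h4⟩ h5
    exact h4 h5.2.2
  · rintro v ⟨h1, h2, h3, -⟩
    have e1 : coeffs d (poly v.1) = v.1 := by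
      have := Pool.Agent.H79.Eul.cf_pol (d := d) v.1
      exact this
    have e2 : coeffs d (poly v.2) = v.2 := by
      have := Pool.Agent.H79.Eul.cf_pol (d := d) v.2
      exact this
    have h := fdens d hd (poly v.1) (poly v.2) h1 h2 h3
    rw [e1, e2] at h
    refine ces_of_full (p := fun r => badProportion d v r) (fun r => ?_) h
    refine ENNReal.div_le_of_le_mul ?_
    rw [one_mul]
    exact measure_mono Set.inter_subset_left

end Pool.Agent.Results.MP_8f2e1c_an.FullDensity
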