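import Mathlib
import Pool.Agent.H44.Fatou.IntPoly2

set_option autoImplicit false

namespace Pool.Agent.H44.Old.IntegerPolynomials

open Polynomial

/-- The rational map `P/Q` of the Riemann sphere is hyperbolic, in the words of the frozen
statement `S05373`: the continuous extension `f` of `P/Q` to the sphere has every critical point
(point where `f` is not locally injective) attracted to an attracting periodic cycle. -/
def IsHyperbolic (P Q : Polynomial ℂ) : Prop :=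
  ∃ f : OnePoint ℂ → OnePoint ℂ, Continuous f ∧
    (∀ z : ℂ, Q.eval z ≠ 0 → f (OnePoint.some z) = OnePoint.some (P.eval z / Q.eval z)) ∧
    ∀ c : OnePoint ℂ, (¬ ∃ U ∈ nhds c, Set.InjOn f U) →
      ∃ z : OnePoint ℂ, ∃ n : ℕ, 0 < n ∧ f^[n] z = z ∧
        (∃ U ∈ nhds z, ∀ w ∈ U,
          Filter.Tendsto (fun k : ℕ => f^[n * k] w) Filter.atTop (nhds z)) ∧
        Filter.Tendsto (fun k : ℕ => f^[n * k] c) Filter.atTop (nhds z)

/-- Of the `(2N+1)^(d+1)` integer polynomials `a_0 + a_1 X + ... + a_d X^d` with `|a_i| ≤ N`, all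
but at most `(2d²+7d+1) (1 + log N) (2N+1)^d` have degree exactly `d` and are hyperbolic. -/
theorem result (d : ℕ) (hd : 2 ≤ d) (N : ℕ) (hN : 1 ≤ N) :
    (({a : Fin (d + 1) → ℤ | (∀ i, |a i| ≤ (N : ℤ)) ∧
        ¬ (a (Fin.last d) ≠ 0 ∧
          IsHyperbolic (∑ i, C ((a i : ℤ) : ℂ) * X ^ (i : ℕ)) 1)}.ncard : ℕ) : ℝ) ≤
      (2 * (d : ℝ) ^ 2 + 7 * d + 1) * (1 + Real.log N) * (2 * N + 1) ^ d := by
  classical
  obtain ⟨e, rfl⟩ : ∃ e, d = e + 1 := ⟨d - 1, by omega⟩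
  have h := Pool.Agent.H44.Fatou.bad_count e N (by omega) hN
  have hset : {a : Fin (e + 1 + 1) → ℤ | (∀ i, |a i| ≤ (N : ℤ)) ∧
        ¬ (a (Fin.last (e + 1)) ≠ 0 ∧
          IsHyperbolic (∑ i, C ((a i : ℤ) : ℂ) * X ^ (i : ℕ)) 1)} =
      ((Pool.Agent.H44.Fatou.badF (e + 1) N : Finset (Fin (e + 1 + 1) → ℤ)) :
        Set (Fin (e + 1 + 1) → ℤ)) := by
    ext a
    rw [Finset.mem_coe]
    unfold Pool.Agent.H44.Fatou.badF
    rw [Finset.mem_filter, Fintype.mem_piFinset, Set.mem_ofPred_eq]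
    apply and_congr
    · apply forall_congr'
      intro i
      rw [Finset.mem_Icc, abs_le]
    · exact Iff.rfl
  rw [hset, Set.ncard_coe_finset]
  exact h

end Pool.Agent.H44.Old.IntegerPolynomials
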