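import Mathlib
import Pool.Agent.H44.Fatou.PowDense

set_option autoImplicit false

namespace Pool.Agent.Results.MP_8f2e1c_an.PowerFamilies

open Polynomial

/-- The rational map `P/Q` of the Riemann sphere is hyperbolic, in the words of the frozen
statement `S05373`: the continuous extension `f` of `P/Q` to the sphere has every critical point
(point where `f` is not locally injective) attracted to an attracting periodic cycle. -/
def IsHyperbolic (P Q : Polynomial ℂ) : Prop :=
  ∃ f : OnePoint ℂ → OnePoint ℂ, Continuous f ∧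
    (∀ z : ℂ, Q.eval z ≠ 0 → f (OnePoint.some z) = OnePoint.some (P.eval z / Q.eval z)) ∧
    ∀ c : OnePoint ℂ, (¬ ∃ U ∈ nhds c, Set.InjOn f U) →
      ∃ z : OnePoint ℂ, ∃ n : ℕ, 0 < n ∧ f^[n] z = z ∧
        (∃ U ∈ nhds z, ∀ w ∈ U,
          Filter.Tendsto (fun k : ℕ => f^[n * k] w) Filter.atTop (nhds z)) ∧
        Filter.Tendsto (fun k : ℕ => f^[n * k] c) Filter.atTop (nhds z)

/-- For every `m ≥ 1` and `ε > 0` and all large `N`, the hyperbolic maps are `ε`-dense in the
family of the powers `g^N`, `g` a rational map of degree `m`: every pair `(P, Q)` of degrees at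
most `m` with coefficients of modulus at most one is coefficientwise `ε`-close to a coprime pair
`(P', Q')` with `max (deg P') (deg Q') = m` such that `(P'/Q')^N` is hyperbolic. -/
theorem result (m : ℕ) (hm : 1 ≤ m) (ε : ℝ) (hε : 0 < ε) :
    ∃ N₀ : ℕ, ∀ N : ℕ, N₀ ≤ N → ∀ P Q : Polynomial ℂ, P.natDegree ≤ m → Q.natDegree ≤ m →
      (∀ i : ℕ, ‖P.coeff i‖ ≤ 1 ∧ ‖Q.coeff i‖ ≤ 1) →
      ∃ P' Q' : Polynomial ℂ, IsCoprime P' Q' ∧ max P'.natDegree Q'.natDegree = m ∧
        (∀ i : ℕ, ‖P'.coeff i - P.coeff i‖ < ε ∧ ‖Q'.coeff i - Q.coeff i‖ < ε) ∧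
        IsHyperbolic (P' ^ N) (Q' ^ N) :=
  Pool.Agent.H44.Fatou.pow_uniform m hm hε

end Pool.Agent.Results.MP_8f2e1c_an.PowerFamilies
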